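import Mathlib

namespace Pool.Agent.H.MP_190226_lc

open MeasureTheory Set

variable {X : Type} [MeasurableSpace X]

/-- The full group of `T₀`: bimeasurable bijections sending every point into its `T₀`-orbit. -/
def Full (T₀ : X ≃ᵐ X) : Subgroup (Equiv.Perm X) where
  carrier := {U | Measurable U ∧ Measurable U.symm ∧ ∀ x, ∃ n : ℤ, (T₀.toEquiv ^ n) x = U x}
  mul_mem' := fun {a b} ha hb => ⟨ha.1.comp hb.1, hb.2.1.comp ha.2.1, fun x =>
    Equiv.Perm.SameCycle.trans (hb.2.2 x) (ha.2.2 (b x))⟩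
  one_mem' := ⟨measurable_id, measurable_id, fun _ => ⟨0, rfl⟩⟩
  inv_mem' := fun {a} ha => ⟨ha.2.1, ha.1, fun x => Equiv.Perm.SameCycle.symm (by
    obtain ⟨n, hn⟩ := ha.2.2 (a⁻¹ x)
    exact ⟨n, by simpa using hn⟩)⟩

/-- The full group as a type attached to the measure (which carries the uniform metric). -/
def FG (_μ : Measure X) (T₀ : X ≃ᵐ X) : Type := Full T₀

instance (μ : Measure X) (T₀ : X ≃ᵐ X) : Group (FG μ T₀) := inferInstanceAs (Group (Full T₀))

/-- The uniform distance. -/
noncomputable instance (μ : Measure X) [IsFiniteMeasure μ] (T₀ : X ≃ᵐ X) :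
    PseudoMetricSpace (FG μ T₀) where
  dist U V := μ.real {x | U.1 x ≠ V.1 x}
  dist_self U := by simp
  dist_comm U V := by simp only [ne_comm]
  dist_triangle U V W := by
    refine (measureReal_mono ?_).trans (measureReal_union_le _ _)
    intro x hx
    by_contra h
    simp only [mem_union, mem_ofPred_eq, not_or, not_not] at h
    exact hx (h.1.trans h.2)

/-- The Borel sets of the uniform topology. -/
noncomputable instance (μ : Measure X) [IsFiniteMeasure μ] (T₀ : X ≃ᵐ X) :
    MeasurableSpace (FG μ T₀) := borel _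

/-- Conjugacy inside the full group, modulo null sets. -/
def ConjF (μ : Measure X) (T₀ : X ≃ᵐ X) (S T : FG μ T₀) : Prop :=
  ∃ U : FG μ T₀, ∀ᵐ x ∂μ, S.1 x = U.1 (T.1 (U.1.symm x))

end Pool.Agent.H.MP_190226_lc
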