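import Mathlib
import Pool.Agent.H.MP_190226_lc.Defs

namespace Pool.Agent.H.MP_190226_lc

open MeasureTheory Set Filter Topology

section General

variable {Y : Type} [MeasurableSpace Y] [StandardBorelSpace Y] {ν : Measure Y}
  {ι : Type} [Countable ι] {γ : ι → Y ≃ᵐ Y}

theorem mp_of_pieces [IsFiniteMeasure ν] (hγ : ∀ i, MeasurePreserving (γ i) ν ν) {f : Y → Y}
    (hf : Measurable f) (hi : Function.Injective f) (h : ∀ y, ∃ i, γ i y = f y) :
    MeasurePreserving f ν ν := by
  have key : ∀ B, MeasurableSet B → ν (f ⁻¹' B) ≤ ν B := by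
    intro B hB
    letI := Encodable.ofCountable ι
    let A : ι → Set Y := fun i => {y | γ i y = f y} \
      ⋃ j : {j // Encodable.encode j < Encodable.encode i}, {y | γ j.1 y = f y}
    have mA : ∀ i, MeasurableSet (A i) := fun i =>
      (measurableSet_eq_fun (γ i).measurable hf).diff (MeasurableSet.iUnion fun j =>
        measurableSet_eq_fun (γ j.1).measurable hf)
    have cov : f ⁻¹' B ⊆ ⋃ i, γ i ⁻¹' ((γ i).symm ⁻¹' A i ∩ B) := by
      intro y hy
      obtain ⟨i, hi1, hi2⟩ := (measure fun i : ι => Encodable.encode i).wf.has_min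
        {i | γ i y = f y} (h y)
      refine mem_iUnion.2 ⟨i, ?_, ?_⟩
      · simp only [mem_preimage, MeasurableEquiv.symm_apply_apply]
        refine ⟨hi1, fun hh => ?_⟩
        obtain ⟨j, hj⟩ := mem_iUnion.1 hh
        exact hi2 j hj j.2
      · show γ i y ∈ B
        rw [show γ i y = f y from hi1]
        exact hy
    have mC : ∀ i, MeasurableSet ((γ i).symm ⁻¹' A i ∩ B) := fun i =>
      ((γ i).symm.measurable (mA i)).inter hB
    refine (measure_mono cov).trans ((measure_iUnion_le _).trans ?_)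
    simp only [fun i => (hγ i).measure_preimage (mC i).nullMeasurableSet]
    rw [← measure_iUnion ?_ mC]
    · exact measure_mono (iUnion_subset fun i => inter_subset_right)
    · intro i j hij
      refine Set.disjoint_left.2 fun z h1 h2 => ?_
      have a1 : γ i ((γ i).symm z) = f ((γ i).symm z) := h1.1.1
      have a2 : γ j ((γ j).symm z) = f ((γ j).symm z) := h2.1.1
      have e : (γ i).symm z = (γ j).symm z := hi (by
        rw [← a1, ← a2]; simp)
      rcases lt_trichotomy (Encodable.encode i) (Encodable.encode j) with h | h | h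
      · exact h2.1.2 (mem_iUnion.2 ⟨⟨i, h⟩, by rw [← e]; exact a1⟩)
      · exact hij (Encodable.encode_injective h)
      · exact h1.1.2 (mem_iUnion.2 ⟨⟨j, h⟩, by rw [e]; exact a2⟩)
  refine ⟨hf, Measure.ext fun B hB => ?_⟩
  rw [Measure.map_apply hf hB]
  refine le_antisymm (key B hB) ?_
  have h1 := key Bᶜ hB.compl
  rw [preimage_compl, measure_compl (hf hB) (measure_ne_top _ _),
    measure_compl hB (measure_ne_top _ _)] at h1
  exact (ENNReal.sub_le_sub_iff_left (measure_mono (subset_univ _)) (measure_ne_top _ _)).1 h1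

open Classical in
/-- selection from a functional relation -/
noncomputable def sel {Y : Type} (L : Y → Y → Prop) (x : Y) : Y :=
  if h : ∃ y, L x y then h.choose else x

theorem sel_eq {Y : Type} {L : Y → Y → Prop} (hL : ∀ x a b, L x a → L x b → a = b) {x y : Y}
    (h : L x y) : sel L x = y := by
  have h' : ∃ y, L x y := ⟨y, h⟩
  rw [sel, dif_pos h']
  exact hL x _ _ h'.choose_spec h

theorem sel_of_not {Y : Type} {L : Y → Y → Prop} {x : Y} (h : ¬ ∃ y, L x y) : sel L x = x := by
  rw [sel, dif_neg h]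

omit [StandardBorelSpace Y] in
theorem meas_dom {L : Y → Y → Prop} (mL : MeasurableSet {p : Y × Y | L p.1 p.2})
    (h : ∀ x y, L x y → ∃ i, γ i x = y) : MeasurableSet {x | ∃ y, L x y} := by
  have : {x | ∃ y, L x y} = ⋃ i, (fun x => (x, γ i x)) ⁻¹' {p : Y × Y | L p.1 p.2} := by
    ext x
    simp only [mem_ofPred_eq, mem_iUnion, mem_preimage]
    refine ⟨fun ⟨y, hy⟩ => ?_, fun ⟨i, hi⟩ => ⟨_, hi⟩⟩
    obtain ⟨i, rfl⟩ := h x y hy
    exact ⟨i, hy⟩
  rw [this]
  exact MeasurableSet.iUnion fun i => (measurable_id.prodMk (γ i).measurable) mL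

omit [StandardBorelSpace Y] in
theorem meas_sel {L : Y → Y → Prop} (mL : MeasurableSet {p : Y × Y | L p.1 p.2})
    (hL : ∀ x a b, L x a → L x b → a = b) (h : ∀ x y, L x y → ∃ i, γ i x = y) :
    Measurable (sel L) := by
  intro B hB
  have : sel L ⁻¹' B = (⋃ i, (fun x => (x, γ i x)) ⁻¹' {p : Y × Y | L p.1 p.2} ∩ γ i ⁻¹' B) ∪
      ({x | ∃ y, L x y}ᶜ ∩ B) := by
    ext x
    simp only [mem_preimage, mem_union, mem_iUnion, mem_inter_iff, mem_ofPred_eq, mem_compl_iff]
    by_cases hx : ∃ y, L x y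
    · obtain ⟨y, hy⟩ := hx
      obtain ⟨i, rfl⟩ := h x y hy
      rw [sel_eq hL hy]
      refine ⟨fun hh => Or.inl ⟨i, hy, hh⟩, ?_⟩
      rintro (⟨j, h1, h2⟩ | ⟨h1, -⟩)
      · rwa [hL x _ _ hy h1]
      · exact absurd ⟨_, hy⟩ h1
    · rw [sel_of_not hx]
      refine ⟨fun hh => Or.inr ⟨hx, hh⟩, ?_⟩
      rintro (⟨j, h1, -⟩ | ⟨-, h1⟩)
      · exact absurd ⟨_, h1⟩ hx
      · exact h1
  rw [this]
  exact (MeasurableSet.iUnion fun i => ((measurable_id.prodMk (γ i).measurable) mL).inter
    ((γ i).measurable hB)).union ((meas_dom mL h).compl.inter hB)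

end General

variable {X : Type} [MeasurableSpace X] (μ : Measure X) (T₀ : X ≃ᵐ X)

/-- integer powers -/
def pw (n : ℤ) : X ≃ᵐ X where
  toEquiv := T₀.toEquiv ^ n
  measurable_toFun :=
    ((Full T₀).zpow_mem (x := T₀.toEquiv) ⟨T₀.measurable, T₀.symm.measurable, fun _ => ⟨1, rfl⟩⟩ n).1
  measurable_invFun :=
    ((Full T₀).zpow_mem (x := T₀.toEquiv)
      ⟨T₀.measurable, T₀.symm.measurable, fun _ => ⟨1, rfl⟩⟩ n).2.1

theorem pw_apply (n : ℤ) (x : X) : pw T₀ n x = (T₀.toEquiv ^ n) x := rfl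

variable {μ T₀}

theorem pw_mp (hT : MeasurePreserving T₀ μ μ) (n : ℤ) : MeasurePreserving (pw T₀ n) μ μ := by
  induction n using Int.induction_on with
  | zero => exact MeasurePreserving.id μ
  | succ n ih =>
    have : ⇑(pw T₀ (n + 1)) = pw T₀ n ∘ T₀ := by
      funext x; simp [pw_apply, zpow_add_one]
    rw [this]; exact ih.comp hT
  | pred n ih =>
    have : ⇑(pw T₀ (-n - 1)) = pw T₀ (-n) ∘ T₀.symm := by
      funext x; simp only [pw_apply, zpow_sub_one, Function.comp]; rfl
    rw [this]; exact ih.comp (hT.symm T₀)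

variable [StandardBorelSpace X] [IsFiniteMeasure μ]

theorem FG.mp (hT : MeasurePreserving T₀ μ μ) (U : FG μ T₀) : MeasurePreserving U.1 μ μ :=
  mp_of_pieces (pw_mp hT) U.2.1 U.1.injective U.2.2.2

omit [IsFiniteMeasure μ] [StandardBorelSpace X] in
theorem of_rel (hT : MeasurePreserving T₀ μ μ) {L : X → X → Prop}
    (mL : MeasurableSet {p : X × X | L p.1 p.2})
    (h1 : ∀ x a b, L x a → L x b → a = b) (h2 : ∀ y a b, L a y → L b y → a = b)
    (h : ∀ x y, L x y → Equiv.Perm.SameCycle T₀.toEquiv x y) (a1 : ∀ᵐ x ∂μ, ∃ y, L x y)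
    (a2 : ∀ᵐ y ∂μ, ∃ x, L x y) : ∃ U : FG μ T₀, ∀ᵐ x ∂μ, L x (U.1 x) := by
  have mL' : MeasurableSet {p : X × X | L p.2 p.1} := measurable_swap mL
  obtain ⟨G, hG⟩ : ∃ G : Set X, G = ⋂ n : ℤ, pw T₀ n ⁻¹' ({x | ∃ y, L x y} ∩ {y | ∃ x, L x y}) :=
    ⟨_, rfl⟩
  have mG : MeasurableSet G := hG ▸ MeasurableSet.iInter fun n => (pw T₀ n).measurable
    ((meas_dom (γ := pw T₀) mL h).inter
      (meas_dom (γ := pw T₀) (L := fun y x => L x y) mL' fun y x hh => (h x y hh).symm))
  have aG : ∀ᵐ x ∂μ, x ∈ G := by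
    simp only [hG, mem_iInter]
    exact ae_all_iff.2 fun n => (pw_mp hT n).quasiMeasurePreserving.ae (a1.and a2)
  have iG : ∀ x y, Equiv.Perm.SameCycle T₀.toEquiv x y → x ∈ G → y ∈ G := by
    rintro x _ ⟨n, rfl⟩ hx
    simp only [hG, mem_iInter] at hx ⊢
    intro m
    have := hx (m + n)
    simpa only [mem_preimage, pw_apply, zpow_add, Equiv.Perm.mul_apply] using this
  have G0 : ∀ x ∈ G, (∃ y, L x y) ∧ ∃ y, L y x := fun x hx => by
    simp only [hG, mem_iInter] at hx
    exact hx 0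
  have f1 : ∀ x a b, L x a ∧ x ∈ G → L x b ∧ x ∈ G → a = b := fun x a b p q => h1 x a b p.1 q.1
  have f2 : ∀ y a b, L a y ∧ y ∈ G → L b y ∧ y ∈ G → a = b := fun x a b p q => h2 x a b p.1 q.1
  have n1 : ∀ x ∉ G, sel (fun x y => L x y ∧ x ∈ G) x = x := fun x hx =>
    sel_of_not fun ⟨_, hh⟩ => hx hh.2
  have n2 : ∀ x ∉ G, sel (fun y x => L x y ∧ y ∈ G) x = x := fun x hx =>
    sel_of_not fun ⟨_, hh⟩ => hx hh.2
  let e : Equiv.Perm X :=
    { toFun := sel fun x y => L x y ∧ x ∈ G
      invFun := sel fun y x => L x y ∧ y ∈ G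
      left_inv := fun x => by
        by_cases hx : x ∈ G
        · obtain ⟨y, hy⟩ := (G0 x hx).1
          rw [sel_eq f1 ⟨hy, hx⟩, sel_eq f2 ⟨hy, iG _ _ (h _ _ hy) hx⟩]
        · rw [n1 x hx, n2 x hx]
      right_inv := fun x => by
        by_cases hx : x ∈ G
        · obtain ⟨y, hy⟩ := (G0 x hx).2
          rw [sel_eq f2 ⟨hy, hx⟩, sel_eq f1 ⟨hy, iG _ _ (h _ _ hy).symm hx⟩]
        · rw [n2 x hx, n1 x hx] }
  refine ⟨⟨e, meas_sel (γ := pw T₀) (mL.inter (measurable_fst mG)) f1 fun x y hh => h x y hh.1,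
    meas_sel (γ := pw T₀) (L := fun y x => L x y ∧ y ∈ G) (mL'.inter (measurable_fst mG)) f2
      fun y x hh => (h x y hh.1).symm, fun x => ?_⟩, aG.mono fun x hx => ?_⟩
  · by_cases hx : x ∈ G
    · obtain ⟨y, hy⟩ := (G0 x hx).1
      have : e x = y := sel_eq f1 ⟨hy, hx⟩
      rw [this]
      exact h _ _ hy
    · exact ⟨0, (n1 x hx).symm⟩
  · obtain ⟨y, hy⟩ := (G0 x hx).1
    have : e x = y := sel_eq f1 ⟨hy, hx⟩
    show L x (e x)
    rwa [this]

omit [StandardBorelSpace X] in
theorem dist_def (U V : FG μ T₀) : dist U V = μ.real {x | U.1 x ≠ V.1 x} := rfl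

omit [StandardBorelSpace X] in
theorem dist_left (W U V : FG μ T₀) : dist (W * U) (W * V) = dist U V := by
  rw [dist_def, dist_def]
  congr 1
  ext x
  exact W.1.injective.ne_iff

theorem dist_right (hT : MeasurePreserving T₀ μ μ) (W U V : FG μ T₀) :
    dist (U * W) (V * W) = dist U V := by
  exact (FG.mp hT W).measureReal_preimage
    (measurableSet_eq_fun U.2.1 V.2.1).compl.nullMeasurableSet

theorem dist_inv (hT : MeasurePreserving T₀ μ μ) (U V : FG μ T₀) : dist U⁻¹ V⁻¹ = dist U V := by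
  rw [← dist_left U, ← dist_right hT V, dist_comm]
  simp

theorem topGroup (hT : MeasurePreserving T₀ μ μ) : IsTopologicalGroup (FG μ T₀) where
  continuous_mul := by
    refine (LipschitzWith.of_dist_le_mul (K := 2) fun p q => ?_).continuous
    have h1 := dist_triangle (p.1 * p.2) (p.1 * q.2) (q.1 * q.2)
    rw [dist_left, dist_right hT] at h1
    have h2 : dist p.1 q.1 ≤ dist p q := le_max_left _ _
    have h3 : dist p.2 q.2 ≤ dist p q := le_max_right _ _
    push_cast
    linarith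
  continuous_inv := (Isometry.of_dist_eq (dist_inv hT)).continuous

omit [StandardBorelSpace X] in
theorem dist_eq_zero_iff (U V : FG μ T₀) : dist U V = 0 ↔ ∀ᵐ x ∂μ, U.1 x = V.1 x := by
  rw [dist_def, measureReal_eq_zero_iff (measure_ne_top _ _), ae_iff]

theorem complete (hT : MeasurePreserving T₀ μ μ) : CompleteSpace (FG μ T₀) := by
  refine Metric.complete_of_convergent_controlled_sequences (fun n => (1 / 2) ^ n)
    (fun n => by positivity) fun u hu => ?_
  have bc : ∀ v : ℕ → FG μ T₀, (∀ n, dist (v n) (v (n + 1)) < (1 / 2) ^ n) →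
      ∀ᵐ x ∂μ, ∃ y, ∀ᶠ n in atTop, (v n).1 x = y := by
    intro v hv
    have : ∑' n, μ {x | (v n).1 x ≠ (v (n + 1)).1 x} ≠ ⊤ := by
      refine ne_top_of_le_ne_top ?_ (ENNReal.tsum_le_tsum (g := fun n =>
        ENNReal.ofReal ((1 / 2) ^ n)) fun n => ?_)
      · rw [← ENNReal.ofReal_tsum_of_nonneg (fun n => by positivity) summable_geometric_two]
        exact ENNReal.ofReal_ne_top
      · rw [← ofReal_measureReal (measure_ne_top _ _)]
        exact ENNReal.ofReal_le_ofReal (hv n).le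
    filter_upwards [ae_eventually_notMem this] with x hx
    obtain ⟨N, hN⟩ := eventually_atTop.1 hx
    refine ⟨(v N).1 x, eventually_atTop.2 ⟨N, fun n hn => ?_⟩⟩
    induction n, hn using Nat.le_induction with
    | base => rfl
    | succ n hn ih => rw [← ih]; exact (not_not.1 (hN n hn)).symm
  have hu' : ∀ n, dist (u n) (u (n + 1)) < (1 / 2) ^ n := fun n => hu n n (n + 1) le_rfl n.le_succ
  obtain ⟨U, hU⟩ := of_rel hT (L := fun x y => ∀ᶠ n in atTop, (u n).1 x = y) (by
      simp only [eventually_atTop, ofPred_exists, ofPred_forall]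
      exact MeasurableSet.iUnion fun N => MeasurableSet.iInter fun n => MeasurableSet.iInter fun _ =>
        measurableSet_eq_fun ((u n).2.1.comp measurable_fst) measurable_snd)
    (fun x a b p q => by
      obtain ⟨n, h1, h2⟩ := (p.and q).exists
      exact h1.symm.trans h2)
    (fun x a b p q => by
      obtain ⟨n, h1, h2⟩ := (p.and q).exists
      exact (u n).1.injective (h1.trans h2.symm))
    (fun x y p => by
      obtain ⟨n, rfl⟩ := p.exists
      exact (u n).2.2.2 x) (bc u hu')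
    ((bc (fun n => (u n)⁻¹) fun n => by rw [dist_inv hT]; exact hu' n).mono fun y ⟨x, hx⟩ =>
      ⟨x, hx.mono fun n hn => by rw [← hn]; exact (u n).1.apply_symm_apply y⟩)
  refine ⟨U, tendsto_iff_dist_tendsto_zero.2 ?_⟩
  have := tendsto_measure_of_ae_tendsto_indicator (μ := μ) (A := ∅)
    (As := fun n => {x | (u n).1 x ≠ U.1 x}) atTop MeasurableSet.empty
    (fun n => (measurableSet_eq_fun (u n).2.1 U.2.1).compl) MeasurableSet.univ
    (measure_ne_top _ _) (Eventually.of_forall fun _ => subset_univ _)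
    (hU.mono fun x hx => hx.mono fun n hn => by simp [hn])
  rw [measure_empty] at this
  exact (ENNReal.tendsto_toReal ENNReal.zero_ne_top).comp this

theorem secondCount : SecondCountableTopology (FG μ T₀) := by
  refine Metric.secondCountable_of_countable_discretization fun ε hε => ?_
  obtain ⟨𝒜, c𝒜, d𝒜⟩ := exists_countable_measureDense (μ := μ)
  haveI := c𝒜.to_subtype
  obtain ⟨e, he⟩ := exists_surjective_nat ℤ
  have mA : ∀ (U : FG μ T₀) k, MeasurableSet {x | pw T₀ (e k) x = U.1 x} := fun U k =>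
    measurableSet_eq_fun (pw T₀ _).measurable U.2.1
  have h1 : ∀ U : FG μ T₀, ∃ N : ℕ, μ.real {x | ∀ k < N, pw T₀ (e k) x ≠ U.1 x} ≤ ε / 3 := by
    intro U
    have := tendsto_measure_of_ae_tendsto_indicator (μ := μ) (A := ∅)
      (As := fun N => {x | ∀ k < N, pw T₀ (e k) x ≠ U.1 x}) atTop MeasurableSet.empty
      (fun n => by
        simp only [ofPred_forall]
        exact MeasurableSet.iInter fun k => MeasurableSet.iInter fun _ => (mA U k).compl)
      MeasurableSet.univ (measure_ne_top _ _) (Eventually.of_forall fun _ => subset_univ _)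
      (Eventually.of_forall fun x => by
        obtain ⟨n, hn⟩ := U.2.2.2 x
        obtain ⟨k, rfl⟩ := he n
        filter_upwards [eventually_gt_atTop k] with N hN
        simp only [mem_ofPred_eq, mem_empty_iff_false, iff_false, not_forall, not_not]
        exact ⟨k, hN, hn⟩)
    rw [measure_empty] at this
    exact (((ENNReal.tendsto_toReal ENNReal.zero_ne_top).comp this).eventually
      (ge_mem_nhds (show (0 : ENNReal).toReal < ε / 3 by simpa using hε))).exists
  choose N hN using h1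
  have h2 : ∀ (U : FG μ T₀) (k : ℕ), ∃ t : 𝒜,
      μ.real (symmDiff {x | pw T₀ (e k) x = U.1 x} t) ≤ ε / 3 / (N U + 1) := fun U k => by
    obtain ⟨t, ht, h⟩ := d𝒜.approx _ (mA U k) (measure_ne_top _ _) (ε / 3 / (N U + 1))
      (by positivity)
    exact ⟨⟨t, ht⟩, ENNReal.toReal_le_of_le_ofReal (by positivity) h.le⟩
  choose t ht using h2
  refine ⟨Σ n : ℕ, Fin n → 𝒜, Encodable.ofCountable _, fun U => ⟨N U, fun k => t U k⟩,
    fun U V h => ?_⟩
  have e1 : N U = N V := congrArg Sigma.fst h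
  have e2 : ∀ k < N U, t U k = t V k := fun k hk => by
    have := (Sigma.mk.inj_iff.1 h).2
    revert this
    generalize N V = M at e1
    subst e1
    intro this
    exact congrFun (eq_of_heq this) ⟨k, hk⟩
  have sub : {x | U.1 x ≠ V.1 x} ⊆ {x | ∀ k < N U, pw T₀ (e k) x ≠ U.1 x} ∪
      ⋃ k ∈ Finset.range (N U), (symmDiff {x | pw T₀ (e k) x = U.1 x} (t U k) ∪
        symmDiff {x | pw T₀ (e k) x = V.1 x} (t V k)) := by
    intro x hx
    by_cases h3 : ∀ k < N U, pw T₀ (e k) x ≠ U.1 x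
    · exact Or.inl h3
    · push Not at h3
      obtain ⟨k, hk, h4⟩ := h3
      refine Or.inr (mem_biUnion (Finset.mem_range.2 hk) ?_)
      by_cases h5 : x ∈ (t U k).1
      · exact Or.inr (Or.inr ⟨e2 k hk ▸ h5, fun hh => hx (h4.symm.trans hh)⟩)
      · exact Or.inl (Or.inl ⟨h4, h5⟩)
  refine (measureReal_mono sub).trans ((measureReal_union_le _ _).trans ?_)
  have := (measureReal_biUnion_finset_le (μ := μ) (Finset.range (N U)) fun k =>
    symmDiff {x | pw T₀ (e k) x = U.1 x} (t U k) ∪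
      symmDiff {x | pw T₀ (e k) x = V.1 x} (t V k)).trans (Finset.sum_le_sum
        (g := fun _ => 2 * (ε / 3 / (N U + 1))) fun k _ => (measureReal_union_le _ _).trans (by
          have a := ht U k
          have b := ht V k
          rw [← e1] at b
          linarith))
  simp only [Finset.sum_const, Finset.card_range, nsmul_eq_mul] at this
  have h6 : (N U : ℝ) * (2 * (ε / 3 / (N U + 1))) ≤ 2 * (ε / 3) := by
    rw [mul_left_comm, ← mul_div_assoc]
    refine mul_le_mul_of_nonneg_left ?_ zero_le_two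
    rw [div_le_iff₀ (by positivity)]
    nlinarith
  linarith [hN U]

end Pool.Agent.H.MP_190226_lc
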