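import Mathlib
import Pool.Agent.H.MP_190226_lc.A

namespace Pool.Agent.H.MP_190226_lc

open MeasureTheory Set Filter Topology Function

variable {Y : Type} [MeasurableSpace Y] {ι : Type} (γ : ι → Y ≃ᵐ Y) (σ : Y → Bool)
  (Q : Equiv.Perm Y)

/-- invariant measurable matchings between the two sides -/
structure Mt (L : Y → Y → Prop) : Prop where
  meas : MeasurableSet {p : Y × Y | L p.1 p.2}
  symm : ∀ a b, L a b → L b a
  func : ∀ x a b, L x a → L x b → a = b
  rel : ∀ a b, L a b → ∃ i, γ i a = b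
  flip : ∀ a b, L a b → σ b = !σ a
  inv : ∀ a b, L (Q a) (Q b) ↔ L a b

variable {γ σ Q}

theorem Mt.fix {L} (h : Mt γ σ Q L) (x : Y) : sel L x = x ↔ ¬ ∃ y, L x y := by
  refine ⟨fun hx ⟨y, hy⟩ => ?_, sel_of_not⟩
  rw [sel_eq h.func hy] at hx
  have := h.flip _ _ hy
  rw [hx] at this
  simp at this

theorem Mt.invol {L} (h : Mt γ σ Q L) (x : Y) : sel L (sel L x) = x := by
  by_cases hx : ∃ y, L x y
  · obtain ⟨y, hy⟩ := hx
    rw [sel_eq h.func hy, sel_eq h.func (h.symm _ _ hy)]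
  · rw [sel_of_not hx, sel_of_not hx]

theorem Mt.comm {L} (h : Mt γ σ Q L) (x : Y) : sel L (Q x) = Q (sel L x) := by
  by_cases hx : ∃ y, L x y
  · obtain ⟨y, hy⟩ := hx
    rw [sel_eq h.func hy, sel_eq h.func ((h.inv _ _).2 hy)]
  · rw [sel_of_not hx, sel_of_not]
    rintro ⟨y, hy⟩
    obtain ⟨y, rfl⟩ := Q.surjective y
    exact hx ⟨y, (h.inv _ _).1 hy⟩

theorem Mt.sflip {L} (h : Mt γ σ Q L) {x : Y} (hx : sel L x ≠ x) : σ (sel L x) = !σ x := by
  obtain ⟨y, hy⟩ := not_not.1 ((h.fix x).not.1 hx)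
  rw [sel_eq h.func hy]
  exact h.flip _ _ hy

theorem Mt.srel {L} (h : Mt γ σ Q L) (r0 : ∀ y, ∃ i, γ i y = y) (x : Y) :
    ∃ i, γ i x = sel L x := by
  by_cases hx : ∃ y, L x y
  · obtain ⟨y, hy⟩ := hx
    rw [sel_eq h.func hy]
    exact h.rel _ _ hy
  · rw [sel_of_not hx]
    exact r0 x

variable [StandardBorelSpace Y] [Countable ι] {ν : Measure Y} [IsFiniteMeasure ν]

theorem Mt.mp {L} (h : Mt γ σ Q L) (hγ : ∀ i, MeasurePreserving (γ i) ν ν)
    (r0 : ∀ y, ∃ i, γ i y = y) : MeasurePreserving (sel L) ν ν :=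
  mp_of_pieces hγ (meas_sel h.meas h.func h.rel) (LeftInverse.injective h.invol) (h.srel r0)

theorem extend (hγ : ∀ i, MeasurePreserving (γ i) ν ν) (r0 : ∀ y, ∃ i, γ i y = y)
    (r1 : ∀ i j y, ∃ k, γ k y = γ j (γ i y)) {L K} (hL : Mt γ σ Q L) (hK : Mt γ σ Q K) :
    ∃ L', Mt γ σ Q L' ∧ (∀ p q, L p q → L' p q) ∧
      ν {x | ¬ ∃ y, L' x y} ≤ ν {x | ¬ ∃ y, K x y} := by
  obtain ⟨a, ha⟩ : ∃ a, a = sel L := ⟨_, rfl⟩
  obtain ⟨b, hb⟩ : ∃ b, b = sel K := ⟨_, rfl⟩
  have aa : ∀ x, a (a x) = x := ha ▸ hL.invol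
  have bb : ∀ x, b (b x) = x := hb ▸ hK.invol
  have aQ : ∀ x, a (Q x) = Q (a x) := ha ▸ hL.comm
  have bQ : ∀ x, b (Q x) = Q (b x) := hb ▸ hK.comm
  have ma : MeasurePreserving a ν ν := ha ▸ hL.mp hγ r0
  have mb : MeasurePreserving b ν ν := hb ▸ hK.mp hγ r0
  obtain ⟨W, hW⟩ : ∃ W : Y → Y, W = a ∘ b := ⟨_, rfl⟩
  have mW : MeasurePreserving W ν ν := hW ▸ ma.comp mb
  have Ws : ∀ j x, W^[j + 1] x = a (b (W^[j] x)) := fun j x => by
    rw [iterate_succ_apply', hW]; rfl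
  have WQ : ∀ j x, W^[j] (Q x) = Q (W^[j] x) := fun j x => by
    induction j with
    | zero => rfl
    | succ j ih => rw [Ws, Ws, ih, bQ, aQ]
  have afix : ∀ z, a (a z) = a z → a z = z := fun z h => by rw [← h, aa]
  obtain ⟨P, hP⟩ : ∃ P : ℕ → Y → Prop, ∀ k p, P k p ↔ a p = p ∧ (∀ j ≤ k, b (W^[j] p) ≠ W^[j] p) ∧
      (∀ j < k, a (b (W^[j] p)) ≠ b (W^[j] p)) ∧ a (b (W^[k] p)) = b (W^[k] p) :=
    ⟨_, fun _ _ => Iff.rfl⟩
  have mj : ∀ j, Measurable W^[j] := fun j => mW.measurable.iterate j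
  have mP : ∀ k, MeasurableSet {p | P k p} := fun k => by
    simp only [hP, ofPred_and, ofPred_forall]
    exact (measurableSet_eq_fun ma.measurable measurable_id).inter
      ((MeasurableSet.iInter fun j => MeasurableSet.iInter fun _ =>
        (measurableSet_eq_fun (mb.measurable.comp (mj j)) (mj j)).compl).inter
      ((MeasurableSet.iInter fun j => MeasurableSet.iInter fun _ =>
        (measurableSet_eq_fun (ma.measurable.comp (mb.measurable.comp (mj j)))
          (mb.measurable.comp (mj j))).compl).inter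
      (measurableSet_eq_fun (ma.measurable.comp (mb.measurable.comp (mj k)))
          (mb.measurable.comp (mj k)))))
  have back : ∀ k p j, j ≤ k → b (W^[j] (b (W^[k] p))) = W^[k - j] p := fun k p j hj => by
    induction j with
    | zero => simp [bb]
    | succ j ih =>
      rw [Ws, ih (by omega), show k - j = (k - (j + 1)) + 1 by omega, Ws, aa, bb]
  refine ⟨fun p q => L p q ∨ ∃ k, P k p ∧ q = b (W^[k] p), ⟨?_, ?_, ?_, ?_, ?_, ?_⟩,
    fun p q h => Or.inl h, ?_⟩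
  · simp only [ofPred_or, ofPred_exists, ofPred_and]
    exact hL.meas.union (MeasurableSet.iUnion fun k => (measurable_fst (mP k)).inter
      (measurableSet_eq_fun measurable_snd (mb.measurable.comp ((mj k).comp measurable_fst))))
  · rintro p q (h | ⟨k, h, rfl⟩)
    · exact Or.inl (hL.symm _ _ h)
    · obtain ⟨h1, h2, h3, h4⟩ := (hP _ _).1 h
      refine Or.inr ⟨k, (hP _ _).2 ⟨h4, fun j hj hh => ?_, fun j hj hh => ?_, ?_⟩, ?_⟩
      · have e := back k p j hj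
        refine h2 (k - j) (by omega) ?_
        rw [← e, bb, hh]
      · rw [back k p j hj.le, show k - j = (k - (j + 1)) + 1 by omega, Ws] at hh
        exact h3 _ (by omega) (afix _ hh)
      · rw [back k p k le_rfl, Nat.sub_self]; exact h1
      · rw [back k p k le_rfl, Nat.sub_self]; rfl
  · rintro p q q' (h | ⟨k, h, rfl⟩) (h' | ⟨k', h', rfl⟩)
    · exact hL.func _ _ _ h h'
    · exact absurd ⟨_, h⟩ ((hL.fix p).1 (ha ▸ ((hP _ _).1 h').1))
    · exact absurd ⟨_, h'⟩ ((hL.fix p).1 (ha ▸ ((hP _ _).1 h).1))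
    · rcases lt_trichotomy k k' with hk | hk | hk
      · exact absurd ((hP _ _).1 h).2.2.2 (((hP _ _).1 h').2.2.1 k hk)
      · rw [hk]
      · exact absurd ((hP _ _).1 h').2.2.2 (((hP _ _).1 h).2.2.1 k' hk)
  · have tr : ∀ x y z, (∃ i, γ i x = y) → (∃ i, γ i y = z) → ∃ i, γ i x = z := by
      rintro x _ _ ⟨i, rfl⟩ ⟨j, rfl⟩
      exact r1 i j x
    have ra : ∀ x, ∃ i, γ i x = a x := ha ▸ hL.srel r0
    have rb : ∀ x, ∃ i, γ i x = b x := hb ▸ hK.srel r0
    rintro p q (h | ⟨k, -, rfl⟩)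
    · exact hL.rel _ _ h
    · refine tr _ _ _ ?_ (rb _)
      induction k with
      | zero => exact r0 p
      | succ k ih => rw [Ws]; exact tr _ _ _ (tr _ _ _ ih (rb _)) (ra _)
  · have fa : ∀ x, a x ≠ x → σ (a x) = !σ x := fun x => ha ▸ hL.sflip
    have fb : ∀ x, b x ≠ x → σ (b x) = !σ x := fun x => hb ▸ hK.sflip
    rintro p q (h | ⟨k, h, rfl⟩)
    · exact hL.flip _ _ h
    · obtain ⟨-, h2, h3, -⟩ := (hP _ _).1 h
      have : ∀ j ≤ k, σ (W^[j] p) = σ p := fun j hj => by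
        induction j with
        | zero => rfl
        | succ j ih => rw [Ws, fa _ (h3 j hj), fb _ (h2 j (by omega)), ih (by omega), Bool.not_not]
      rw [fb _ (h2 k le_rfl), this k le_rfl]
  · intro p q
    simp only [hL.inv, hP, WQ, aQ, bQ, ne_eq, Q.injective.eq_iff]
  · obtain ⟨Bad, hBad⟩ : ∃ Bad : ℕ → Set Y, ∀ j, Bad j = {p | a p = p ∧
        (∀ i < j, a (b (W^[i] p)) ≠ b (W^[i] p)) ∧ b (W^[j] p) = W^[j] p} := ⟨_, fun _ => rfl⟩
    have mB : ∀ j, MeasurableSet (Bad j) := fun j => by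
      simp only [hBad, ofPred_and, ofPred_forall]
      exact (measurableSet_eq_fun ma.measurable measurable_id).inter
        ((MeasurableSet.iInter fun j => MeasurableSet.iInter fun _ =>
          (measurableSet_eq_fun (ma.measurable.comp (mb.measurable.comp (mj j)))
            (mb.measurable.comp (mj j))).compl).inter
        (measurableSet_eq_fun (mb.measurable.comp (mj j)) (mj j)))
    have mV : ∀ j, MeasurePreserving (b ∘ a)^[j] ν ν := fun j => (mb.comp ma).iterate j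
    have WV : ∀ j z, W^[j] ((b ∘ a)^[j] z) = z := fun j =>
      LeftInverse.iterate (g := W) (f := b ∘ a) (fun z => by simp [hW, aa, bb]) j
    have rc := mW.conservative.ae_mem_imp_frequently_image_mem (s := {p | a p = p})
      (measurableSet_eq_fun ma.measurable measurable_id).nullMeasurableSet
    have sub : {x | ¬ ∃ y, L x y ∨ ∃ k, P k x ∧ y = b (W^[k] x)} ≤ᵐ[ν] (⋃ j, Bad j : Set Y) := by
      filter_upwards [rc] with p hp hx
      have h1 : a p = p := ha ▸ (hL.fix p).2 fun ⟨y, hy⟩ => hx ⟨y, Or.inl hy⟩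
      have h2 : ∃ k, a (b (W^[k] p)) = b (W^[k] p) := by
        obtain ⟨n, n1, n2⟩ := ((hp h1).and_eventually (eventually_ge_atTop 1)).exists
        obtain ⟨k, rfl⟩ : ∃ k, n = k + 1 := ⟨n - 1, by omega⟩
        refine ⟨k, afix _ ?_⟩
        rw [← Ws]
        exact n1
      classical
      by_contra hn
      refine hx ⟨_, Or.inr ⟨Nat.find h2, (hP _ _).2 ⟨h1, fun j hj hh => hn (mem_iUnion.2 ⟨j, ?_⟩),
        fun j hj => Nat.find_min h2 hj, Nat.find_spec h2⟩, rfl⟩⟩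
      rw [hBad]
      exact ⟨h1, fun i hi => Nat.find_min h2 (by omega), hh⟩
    refine (measure_mono_ae sub).trans ((measure_iUnion_le _).trans ?_)
    simp only [← fun j => (mV j).measure_preimage (mB j).nullMeasurableSet]
    rw [← measure_iUnion ?_ fun j => (mV j).measurable (mB j)]
    · refine measure_mono (iUnion_subset fun j z hz => ?_)
      rw [mem_preimage, hBad] at hz
      have := hz.2.2
      rw [WV] at this
      exact (hK.fix z).1 (hb ▸ this)
    · have key : ∀ i j, i < j → Disjoint ((b ∘ a)^[i] ⁻¹' Bad i) ((b ∘ a)^[j] ⁻¹' Bad j) := by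
        intro i j hij
        refine Set.disjoint_left.2 fun z h1 h2 => ?_
        rw [mem_preimage, hBad] at h1 h2
        obtain ⟨d, rfl⟩ : ∃ d, j = d + 1 + i := ⟨j - i - 1, by omega⟩
        refine h2.2.1 d (by omega) (afix _ ?_)
        rw [← Ws, iterate_add_apply (b ∘ a) (d + 1) i, WV]
        exact h1.1
      intro i j hij
      rcases lt_or_gt_of_ne hij with h | h
      · exact key i j h
      · exact (key j i h).symm

theorem limit (hγ : ∀ i, MeasurePreserving (γ i) ν ν) (r0 : ∀ y, ∃ i, γ i y = y)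
    (r1 : ∀ i j y, ∃ k, γ k y = γ j (γ i y)) (K : ℕ → Y → Y → Prop) (hK : ∀ m, Mt γ σ Q (K m))
    (h0 : Tendsto (fun m => ν {x | ¬ ∃ y, K m x y}) atTop (𝓝 0)) :
    ∃ L, Mt γ σ Q L ∧ ∀ᵐ x ∂ν, ∃ y, L x y := by
  choose F F1 F2 F3 using fun (L : {L // Mt γ σ Q L}) (m : ℕ) => extend hγ r0 r1 L.2 (hK m)
  obtain ⟨s, hs⟩ : ∃ s : ℕ → {L // Mt γ σ Q L}, ∀ m, (s (m + 1)).1 = F (s m) m :=
    ⟨fun m => Nat.rec ⟨K 0, hK 0⟩ (fun m L => ⟨F L m, F1 L m⟩) m, fun _ => rfl⟩
  have mono : ∀ m n, m ≤ n → ∀ p q, (s m).1 p q → (s n).1 p q := fun m n hmn p q h => by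
    induction n, hmn using Nat.le_induction with
    | base => exact h
    | succ n _ ih => rw [hs]; exact F2 _ _ _ _ ih
  refine ⟨fun p q => ∃ m, (s m).1 p q, ⟨?_, ?_, ?_, ?_, ?_, ?_⟩, ?_⟩
  · simp only [ofPred_exists]
    exact MeasurableSet.iUnion fun m => (s m).2.meas
  · exact fun a b ⟨m, h⟩ => ⟨m, (s m).2.symm _ _ h⟩
  · exact fun x a b ⟨m, h⟩ ⟨n, h'⟩ => (s (max m n)).2.func x _ _
      (mono _ _ (le_max_left _ _) _ _ h) (mono _ _ (le_max_right _ _) _ _ h')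
  · exact fun a b ⟨m, h⟩ => (s m).2.rel _ _ h
  · exact fun a b ⟨m, h⟩ => (s m).2.flip _ _ h
  · exact fun a b => exists_congr fun m => (s m).2.inv _ _
  · rw [ae_iff, ← nonpos_iff_eq_zero]
    refine ge_of_tendsto' h0 fun m => le_trans (measure_mono ?_) (F3 (s m) m)
    rintro x hx ⟨y, hy⟩
    exact hx ⟨y, m + 1, hs m ▸ hy⟩

end Pool.Agent.H.MP_190226_lc
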