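import Mathlib
import Pool.Agent.H.MP_190226_lc.B
import Pool.Agent.Lib.helper9.Birkhoff

namespace Pool.Agent.H.MP_190226_lc

open MeasureTheory Set Filter Topology Function
open Classical

/-- two thirds majority -/
def Maj (K : ℕ → Prop) : Prop := ∃ C : ℕ, ∀ N, 2 * N ≤ 3 * Nat.count K N + C

theorem Maj.meet {K K' : ℕ → Prop} (h : Maj K) (h' : Maj K') : ∃ k, K k ∧ K' k := by
  by_contra hn
  push Not at hn
  have : ∀ N, Nat.count K N + Nat.count K' N ≤ N := fun N => by
    induction N with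
    | zero => simp
    | succ N ih =>
      rw [Nat.count_succ, Nat.count_succ]
      have := hn N
      split_ifs <;> first | omega | tauto
  obtain ⟨C, hC⟩ := h
  obtain ⟨C', hC'⟩ := h'
  have h1 := hC (C + C' + 1)
  have h2 := hC' (C + C' + 1)
  have h3 := this (C + C' + 1)
  omega

theorem maj_shift (K : ℕ → Prop) : Maj (fun k => K (k + 1)) ↔ Maj K := by
  constructor
  · rintro ⟨C, hC⟩
    refine ⟨C + 2, fun N => ?_⟩
    cases N with
    | zero => simp
    | succ N =>
      have := hC N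
      rw [Nat.count_succ']
      omega
  · rintro ⟨C, hC⟩
    refine ⟨C + 3, fun N => ?_⟩
    have := hC (N + 1)
    rw [Nat.count_succ'] at this
    split_ifs at this <;> omega

theorem meas_count {Z : Type} [MeasurableSpace Z] {K : Z → ℕ → Prop}
    (hK : ∀ k, MeasurableSet {z | K z k}) (N : ℕ) : Measurable fun z => Nat.count (K z) N := by
  induction N with
  | zero => simp
  | succ N ih =>
    simp only [Nat.count_succ]
    exact ih.add (Measurable.ite (hK N) measurable_const measurable_const)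

variable {X : Type} [MeasurableSpace X] [StandardBorelSpace X] {μ : Measure X}
  [IsFiniteMeasure μ] {T₀ : X ≃ᵐ X}

/-- the good set of an approximate conjugacy -/
def ZZ (h S T : FG μ T₀) : Set X :=
  {x | ∀ N, 2 * N ≤ 3 * Nat.count (fun k => h.1 (S.1^[k] x) = T.1^[k] (h.1 x)) N}

omit [IsFiniteMeasure μ] in
theorem ZZ_meas (h S T : FG μ T₀) : MeasurableSet (ZZ h S T) := by
  simp only [ZZ, ofPred_forall]
  exact MeasurableSet.iInter fun N => measurableSet_le measurable_const
    ((meas_count (fun k => measurableSet_eq_fun (h.2.1.comp (S.2.1.iterate k))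
      ((T.2.1.iterate k).comp h.2.1)) N).const_mul 3)

/-- translation of the two point space -/
def xe (b : Bool) : Bool ≃ᵐ Bool :=
  MeasurableEquiv.ofInvolutive (xor b) (fun c => by cases b <;> cases c <;> rfl)
    (measurable_of_countable _)

theorem xe_mp (b : Bool) : MeasurePreserving (xe b) Measure.count Measure.count := by
  refine ⟨(xe b).measurable, Measure.ext_of_singleton fun c => ?_⟩
  rw [Measure.map_apply (xe b).measurable (measurableSet_singleton c),
    show xe b ⁻¹' {c} = {xor b c} by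
      ext d; cases b <;> cases c <;> cases d <;> simp [xe, MeasurableEquiv.ofInvolutive]]
  simp

theorem conj_of_small (hT : MeasurePreserving T₀ μ μ) (S T : FG μ T₀) (h : ℕ → FG μ T₀)
    (h0 : Tendsto (fun m => μ (ZZ (h m) S T)ᶜ) atTop (𝓝 0)) :
    ∃ U : FG μ T₀, ∀ᵐ x ∂μ, U.1 (S.1 x) = T.1 (U.1 x) := by
  obtain ⟨γ, hγ⟩ : ∃ γ : ℤ × Bool → (X × Bool) ≃ᵐ (X × Bool),
      ∀ i, γ i = (pw T₀ i.1).prodCongr (xe i.2) := ⟨_, fun _ => rfl⟩
  have γa : ∀ i p, γ i p = ((T₀.toEquiv ^ i.1) p.1, xor i.2 p.2) := fun i p => by rw [hγ]; rfl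
  have hR : ∀ p q : X × Bool, (∃ i, γ i p = q) ↔ Equiv.Perm.SameCycle T₀.toEquiv p.1 q.1 := by
    intro p q
    constructor
    · rintro ⟨i, rfl⟩
      exact ⟨i.1, by rw [γa]⟩
    · rintro ⟨n, hn⟩
      exact ⟨(n, xor p.2 q.2), by rw [γa]; exact Prod.ext hn (by cases p.2 <;> cases q.2 <;> rfl)⟩
  obtain ⟨Q, hQ⟩ : ∃ Q : Equiv.Perm (X × Bool), ∀ p, Q p = (if p.2 then T.1 p.1 else S.1 p.1, p.2) :=
    ⟨Equiv.prodCongrLeft fun b : Bool => if b then T.1 else S.1, fun ⟨x, b⟩ => by
      cases b <;> rfl⟩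
  have Qk : ∀ k p, Q^[k] p = (if p.2 then T.1^[k] p.1 else S.1^[k] p.1, p.2) := fun k p => by
    induction k with
    | zero => simp
    | succ k ih =>
      simp only [iterate_succ_apply', ih, hQ]
      cases p.2 <;> simp
  have sc : ∀ (U : FG μ T₀) (k : ℕ) x, Equiv.Perm.SameCycle T₀.toEquiv x (U.1^[k] x) :=
    fun U k x => (U ^ k).2.2.2 x
  have Qsc : ∀ k p, Equiv.Perm.SameCycle T₀.toEquiv p.1 (Q^[k] p).1 := fun k p => by
    rw [Qk]
    cases p.2
    · exact sc S k _
    · exact sc T k _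
  have mQ : ∀ k, Measurable Q^[k] := fun k => by
    rw [funext (Qk k)]
    exact (Measurable.ite (measurable_snd (measurableSet_singleton true))
      ((T.2.1.iterate k).comp measurable_fst) ((S.2.1.iterate k).comp measurable_fst)).prodMk
      measurable_snd
  obtain ⟨H, hH⟩ : ∃ H : FG μ T₀ → X × Bool → X × Bool, ∀ g p,
      H g p = (if p.2 then g.1.symm p.1 else g.1 p.1, !p.2) := ⟨_, fun _ _ => rfl⟩
  have HH : ∀ g p, H g (H g p) = p := fun g ⟨x, b⟩ => by cases b <;> simp [hH]
  have mH : ∀ g, Measurable (H g) := fun g => by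
    rw [funext (hH g)]
    exact (Measurable.ite (measurable_snd (measurableSet_singleton true))
      (g.2.2.1.comp measurable_fst) (g.2.1.comp measurable_fst)).prodMk
      ((measurable_of_countable not).comp measurable_snd)
  have Hsc : ∀ g p, Equiv.Perm.SameCycle T₀.toEquiv p.1 (H g p).1 := fun g p => by
    rw [hH]
    cases p.2
    · exact g.2.2.2 _
    · exact g⁻¹.2.2.2 _
  have hM : ∀ g, Mt γ Prod.snd Q fun p q => Maj fun k => H g (Q^[k] p) = Q^[k] q := by
    refine fun g => ⟨?_, ?_, ?_, ?_, ?_, ?_⟩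
    · simp only [Maj, ofPred_exists, ofPred_forall]
      exact MeasurableSet.iUnion fun C => MeasurableSet.iInter fun N =>
        measurableSet_le measurable_const (((meas_count (fun k => measurableSet_eq_fun
          ((mH g).comp ((mQ k).comp measurable_fst)) ((mQ k).comp measurable_snd)) N).const_mul
            3).add_const C)
    · intro p q hh
      have : (fun k => H g (Q^[k] q) = Q^[k] p) = fun k => H g (Q^[k] p) = Q^[k] q :=
        funext fun k => propext ⟨fun e => by rw [← e, HH], fun e => by rw [← e, HH]⟩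
      rwa [this]
    · intro p a b h1 h2
      obtain ⟨k, k1, k2⟩ := h1.meet h2
      exact Q.injective.iterate k (k1.symm.trans k2)
    · intro p q hh
      obtain ⟨k, k1, -⟩ := hh.meet hh
      exact (hR _ _).2 (((Qsc k p).trans (Hsc g _)).trans (k1 ▸ (Qsc k q).symm))
    · intro p q hh
      obtain ⟨k, k1, -⟩ := hh.meet hh
      have := congrArg Prod.snd k1
      simpa [hH, Qk] using this.symm
    · exact fun p q => maj_shift fun k => H g (Q^[k] p) = Q^[k] q
  obtain ⟨L, hL, hae⟩ := limit (ν := μ.prod Measure.count)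
    (fun i => by rw [hγ]; exact (pw_mp hT i.1).prod (xe_mp i.2))
    (fun y => (hR _ _).2 (Equiv.Perm.SameCycle.refl _ _))
    (fun i j y => (hR _ _).2 (((hR _ _).1 ⟨i, rfl⟩).trans ((hR _ _).1 ⟨j, rfl⟩)))
    _ (fun m => hM (h m)) (by
      have h1 := h0.add h0
      rw [add_zero] at h1
      refine tendsto_of_tendsto_of_tendsto_of_le_of_le tendsto_const_nhds h1
        (fun _ => zero_le) fun m => ?_
      have key : ∀ x ∈ ZZ (h m) S T, Maj fun k =>
          H (h m) (Q^[k] (x, false)) = Q^[k] ((h m).1 x, true) := fun x hx =>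
        ⟨0, fun N => by simpa [hH, Qk] using hx N⟩
      refine (measure_mono (t := (ZZ (h m) S T)ᶜ ×ˢ {false} ∪
        ((h m)⁻¹.1 ⁻¹' (ZZ (h m) S T)ᶜ) ×ˢ {true}) ?_).trans ((measure_union_le _ _).trans ?_)
      · rintro ⟨x, b⟩ hx
        cases b
        · exact Or.inl ⟨fun hh => hx ⟨_, key x hh⟩, rfl⟩
        · refine Or.inr ⟨fun hh => hx ⟨((h m)⁻¹.1 x, false), (hM (h m)).symm _ _ ?_⟩, rfl⟩
          have := key _ hh
          rwa [show (h m).1 ((h m)⁻¹.1 x) = x from (h m).1.apply_symm_apply x] at this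
      · simp only [Measure.prod_prod, Measure.count_singleton, mul_one]
        rw [(FG.mp hT (h m)⁻¹).measure_preimage (ZZ_meas _ _ _).compl.nullMeasurableSet])
  have h2 := Measure.ae_ae_of_ae_prod hae
  simp only [Measure.ae_count_iff] at h2
  obtain ⟨U, hU⟩ := of_rel hT (L := fun x y => L (x, false) (y, true))
    (((measurable_fst.prodMk measurable_const).prodMk
      (measurable_snd.prodMk measurable_const)) hL.meas)
    (fun x a b p q => congrArg Prod.fst (hL.func _ _ _ p q))
    (fun x a b p q => congrArg Prod.fst (hL.func _ _ _ (hL.symm _ _ p) (hL.symm _ _ q)))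
    (fun x y p => (hR _ _).1 (hL.rel _ _ p))
    (h2.mono fun x hx => by
      obtain ⟨⟨y, c⟩, hy⟩ := hx false
      obtain rfl : c = true := hL.flip _ _ hy
      exact ⟨y, hy⟩)
    (h2.mono fun x hx => by
      obtain ⟨⟨y, c⟩, hy⟩ := hx true
      obtain rfl : c = false := hL.flip _ _ hy
      exact ⟨y, hL.symm _ _ hy⟩)
  refine ⟨U, ?_⟩
  filter_upwards [hU, (FG.mp hT S).quasiMeasurePreserving.ae hU] with x h1 h3
  have := (hL.inv _ _).2 h1
  rw [hQ, hQ] at this
  exact congrArg Prod.fst (hL.func _ _ _ h3 this)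

theorem small_of_conj (hT : MeasurePreserving T₀ μ μ) {S T V : FG μ T₀}
    (hV : ∀ᵐ x ∂μ, V.1 (S.1 x) = T.1 (V.1 x)) (h : FG μ T₀) :
    μ.real (ZZ h S T)ᶜ ≤ 3 * dist h V := by
  have hS := FG.mp hT S
  have mB : MeasurableSet {x | h.1 x ≠ V.1 x} := (measurableSet_eq_fun h.2.1 V.2.1).compl
  rw [dist_def]
  set B := {x | h.1 x ≠ V.1 x} with hB
  have i1 : Integrable (B.indicator fun _ => (1 : ℝ)) μ := (integrable_const _).indicator mB
  have mφ : Measurable fun x => B.indicator (fun _ => (1 : ℝ)) x - 1 / 3 :=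
    (measurable_const.indicator mB).sub_const _
  have h1 := Lib.helper9.Birkhoff.maximal hS mφ (i1.sub (integrable_const _))
  set M := {x | ∃ k, 0 < birkhoffSum S.1 (fun x => B.indicator (fun _ => (1 : ℝ)) x - 1 / 3) k x}
    with hM
  rw [integral_sub i1.integrableOn (integrable_const _), setIntegral_indicator mB,
    setIntegral_const, setIntegral_const, smul_eq_mul, smul_eq_mul] at h1
  have h2 : μ.real (M ∩ B) ≤ μ.real B := measureReal_mono inter_subset_right
  have it : ∀ k, ∀ᵐ x ∂μ, V.1 (S.1^[k] x) = T.1^[k] (V.1 x) := fun k => by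
    induction k with
    | zero => exact Eventually.of_forall fun _ => rfl
    | succ k ih =>
      filter_upwards [ih, (hS.iterate k).quasiMeasurePreserving.ae hV] with x e1 e2
      rw [iterate_succ_apply', iterate_succ_apply', e2, e1]
  have h3 : ((ZZ h S T)ᶜ : Set X) ≤ᵐ[μ] M := by
    filter_upwards [ae_all_iff.2 it] with x hx hz
    by_contra hn
    have hn' : ∀ k, birkhoffSum S.1 (fun x => B.indicator (fun _ => (1 : ℝ)) x - 1 / 3) k x ≤ 0 :=
      fun k => not_lt.1 fun hh => hn ⟨k, hh⟩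
    have x0 : h.1 x = V.1 x := by
      by_contra hh
      have := hn' 1
      rw [birkhoffSum_one, indicator_of_mem (show x ∈ B from hh)] at this
      norm_num at this
    have : ∀ N : ℕ, (2 / 3 : ℝ) * N ≤ Nat.count (fun k => h.1 (S.1^[k] x) = T.1^[k] (h.1 x)) N +
        birkhoffSum S.1 (fun x => B.indicator (fun _ => (1 : ℝ)) x - 1 / 3) N x := fun N => by
      induction N with
      | zero => simp
      | succ N ih =>
        rw [birkhoffSum_succ, Nat.count_succ]
        by_cases hb : S.1^[N] x ∈ B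
        · rw [indicator_of_mem hb]
          push_cast
          split_ifs <;> linarith
        · rw [indicator_of_notMem hb, if_pos (by rw [x0, ← hx, not_not.1 hb])]
          push_cast
          linarith
    refine hz fun N => ?_
    have a := this N
    have b := hn' N
    have : (2 : ℝ) * N ≤ 3 * Nat.count (fun k => h.1 (S.1^[k] x) = T.1^[k] (h.1 x)) N := by
      linarith
    exact_mod_cast this
  have h4 : μ.real (ZZ h S T)ᶜ ≤ μ.real M :=
    ENNReal.toReal_mono (measure_ne_top _ _) (measure_mono_ae h3)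
  linarith

theorem closed_small (hT : MeasurePreserving T₀ μ μ) (h : FG μ T₀) (c : ℝ) :
    IsClosed {p : FG μ T₀ × FG μ T₀ | μ.real (ZZ h p.1 p.2)ᶜ ≤ c} := by
  haveI := topGroup hT
  obtain ⟨a, ha⟩ : ∃ a : ℕ → FG μ T₀ × FG μ T₀ → FG μ T₀, ∀ k p,
      a k p = (p.2 ^ k)⁻¹ * h * p.1 ^ k := ⟨_, fun _ _ => rfl⟩
  have ca : ∀ k, Continuous (a k) := fun k => by
    rw [funext (ha k)]
    fun_prop
  obtain ⟨G, hG⟩ : ∃ G : ℕ → FG μ T₀ × FG μ T₀ → Set X, ∀ M p, G M p =
      {x | ∃ N ≤ M, ¬ 2 * N ≤ 3 * Nat.count (fun k => (a k p).1 x = h.1 x) N} :=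
    ⟨_, fun _ _ => rfl⟩
  have e : ∀ p : FG μ T₀ × FG μ T₀, (ZZ h p.1 p.2)ᶜ = ⋃ M, G M p := fun p => by
    have : ∀ x, (fun k => (a k p).1 x = h.1 x) =
        fun k => h.1 (p.1.1^[k] x) = p.2.1^[k] (h.1 x) := fun x => funext fun k => propext (by
      rw [ha]
      exact (p.2 ^ k).1.symm_apply_eq)
    ext x
    simp only [ZZ, mem_compl_iff, mem_ofPred_eq, not_forall, mem_iUnion, hG, this]
    exact ⟨fun ⟨N, hN⟩ => ⟨N, N, le_rfl, hN⟩, fun ⟨_, N, _, hN⟩ => ⟨N, hN⟩⟩
  have key : ∀ M p q, μ.real (G M p) - μ.real (G M q) ≤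
      ∑ k ∈ Finset.range M, dist (a k p) (a k q) := fun M p q => by
    have : G M p ⊆ G M q ∪ ⋃ k ∈ Finset.range M, {x | (a k p).1 x ≠ (a k q).1 x} := by
      intro x hx
      by_cases hh : ∀ k < M, (a k p).1 x = (a k q).1 x
      · rw [hG] at hx
        obtain ⟨N, hN, h2⟩ := hx
        refine Or.inl (hG M q ▸ ⟨N, hN, ?_⟩)
        have : Nat.count (fun k => (a k q).1 x = h.1 x) N =
            Nat.count (fun k => (a k p).1 x = h.1 x) N := by
          rw [Nat.count_eq_card_filter_range, Nat.count_eq_card_filter_range]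
          congr 1
          exact Finset.filter_congr fun k hk => by
            rw [hh k ((Finset.mem_range.1 hk).trans_le hN)]
        rwa [this]
      · push Not at hh
        obtain ⟨k, hk, h2⟩ := hh
        exact Or.inr (mem_biUnion (Finset.mem_range.2 hk) h2)
    have h2 := (measureReal_mono (μ := μ) this).trans ((measureReal_union_le _ _).trans
      (add_le_add le_rfl (measureReal_biUnion_finset_le _ _)))
    simp only [dist_def]
    linarith
  have cG : ∀ M, Continuous fun p => μ.real (G M p) := fun M => by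
    refine continuous_iff_continuousAt.2 fun q => tendsto_iff_dist_tendsto_zero.2 ?_
    have c2 : Continuous fun p => ∑ k ∈ Finset.range M, dist (a k p) (a k q) :=
      continuous_finsetSum _ fun k _ => (ca k).dist continuous_const
    have := c2.tendsto q
    simp only [dist_self, Finset.sum_const_zero] at this
    refine squeeze_zero (fun _ => dist_nonneg) (fun p => ?_) this
    rw [Real.dist_eq, abs_sub_le_iff]
    exact ⟨key _ _ _, by simpa only [dist_comm] using key M q p⟩
  have : {p : FG μ T₀ × FG μ T₀ | μ.real (ZZ h p.1 p.2)ᶜ ≤ c} = ⋂ M, {p | μ.real (G M p) ≤ c} := by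
    ext p
    simp only [mem_ofPred_eq, mem_iInter, e]
    refine ⟨fun hh M => (measureReal_mono (subset_iUnion (fun M => G M p) M)).trans hh,
      fun hh => ?_⟩
    have mono : Monotone fun M => G M p := fun M M' hM x hx => by
      simp only [hG] at hx ⊢
      obtain ⟨N, h1, h2⟩ := hx
      exact ⟨N, h1.trans hM, h2⟩
    exact le_of_tendsto' ((ENNReal.tendsto_toReal (measure_ne_top μ _)).comp
      (tendsto_measure_iUnion_atTop mono)) hh
  rw [this]
  exact isClosed_iInter fun M => isClosed_le (cG M) continuous_const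

theorem conjF_iff (hT : MeasurePreserving T₀ μ μ) (S T : FG μ T₀) :
    ConjF μ T₀ S T ↔ ∃ U : FG μ T₀, ∀ᵐ x ∂μ, U.1 (T.1 x) = S.1 (U.1 x) := by
  refine exists_congr fun U => ⟨fun h => ?_, fun h => ?_⟩
  · filter_upwards [(FG.mp hT U).quasiMeasurePreserving.ae h] with x hx
    rw [hx, Equiv.symm_apply_apply]
  · filter_upwards [(FG.mp hT U⁻¹).quasiMeasurePreserving.ae h] with x hx
    exact (hx.trans (congrArg S.1 (U.1.apply_symm_apply x))).symm

theorem borel_conj (hT : MeasurePreserving T₀ μ μ) :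
    MeasurableSet {p : FG μ T₀ × FG μ T₀ | ConjF μ T₀ p.1 p.2} := by
  haveI : BorelSpace (FG μ T₀) := ⟨rfl⟩
  haveI := secondCount (μ := μ) (T₀ := T₀)
  obtain ⟨d, hd⟩ := TopologicalSpace.exists_dense_seq (FG μ T₀)
  have : {p : FG μ T₀ × FG μ T₀ | ConjF μ T₀ p.1 p.2} = ⋂ m : ℕ, ⋃ i, Prod.swap ⁻¹'
      {p : FG μ T₀ × FG μ T₀ | μ.real (ZZ (d i) p.1 p.2)ᶜ ≤ 1 / ((m : ℝ) + 1)} := by
    ext p
    simp only [mem_ofPred_eq, mem_iInter, mem_iUnion, mem_preimage, conjF_iff hT,
      Prod.fst_swap, Prod.snd_swap]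
    constructor
    · rintro ⟨V, hV⟩ m
      obtain ⟨i, hi⟩ := hd.exists_dist_lt V (show 0 < 1 / ((m : ℝ) + 1) / 3 by positivity)
      refine ⟨i, (small_of_conj hT hV _).trans ?_⟩
      rw [dist_comm]
      linarith
    · intro h
      choose i hi using h
      refine conj_of_small hT _ _ (fun m => d (i m)) ?_
      rw [← ENNReal.tendsto_toReal_zero_iff fun _ => measure_ne_top _ _]
      exact squeeze_zero (fun _ => ENNReal.toReal_nonneg) hi
        tendsto_one_div_add_atTop_nhds_zero_nat
  rw [this]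
  exact MeasurableSet.iInter fun m => MeasurableSet.iUnion fun i =>
    measurable_swap (closed_small hT _ _).measurableSet

end Pool.Agent.H.MP_190226_lc
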